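import Mathlib

/-!
The strong skew Finitesatz in several variables.

`SkewPoly σ n` is the skew polynomial ring `F[x_1, ..., x_n; σ]`: the skew monoid algebra of the
free commutative monoid `ℕ^n` (written multiplicatively, `Mon σ n`) over `F`, where a monomial of
total degree `d` acts on `F` by `σ ^ d`. So `single k a` is the term `a x^k`, and
`single k a * single l b = single (k + l) (a * σ ^ |k| b)`.
-/

namespace Pool.Agent.Results.MP_89f45c_al.SkewFinitesatz

open Finset

variable {F : Type*} [Field F]

/-- The monoid of exponent vectors `ℕ^n`, written multiplicatively. The parameter `σ` only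
records which automorphism will be used in the action on the coefficients. -/
def Mon (_σ : RingAut F) (n : ℕ) : Type := Multiplicative (Fin n → ℕ)

instance (σ : RingAut F) (n : ℕ) : CommMonoid (Mon σ n) :=
  inferInstanceAs (CommMonoid (Multiplicative (Fin n → ℕ)))

/-- The exponents of a monomial. -/
def expo {σ : RingAut F} {n : ℕ} (k : Mon σ n) : Fin n → ℕ := Multiplicative.toAdd k

/-- The total degree, as a homomorphism into the automorphism group: `k ↦ σ ^ |k|`. -/
def degHom (σ : RingAut F) (n : ℕ) : Mon σ n →* RingAut F where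
  toFun k := σ ^ (∑ i, expo k i)
  map_one' := by
    have : (∑ i, expo (1 : Mon σ n) i) = 0 := Finset.sum_eq_zero (fun _ _ => rfl)
    rw [this, pow_zero]
  map_mul' k l := by
    have : (∑ i, expo (k * l) i) = (∑ i, expo k i) + ∑ i, expo l i := by
      rw [← Finset.sum_add_distrib]; rfl
    rw [this, pow_add]

/-- A monomial of total degree `d` acts on the coefficients by `σ ^ d`. -/
noncomputable instance (σ : RingAut F) (n : ℕ) : MulSemiringAction (Mon σ n) F :=
  MulSemiringAction.compHom F (degHom σ n)

/-- The skew polynomial ring `F[x_1, ..., x_n; σ]`. -/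
abbrev SkewPoly (σ : RingAut F) (n : ℕ) : Type _ := SkewMonoidAlgebra F (Mon σ n)

/-- `N_k(a) = σ^(k-1)(a) ... σ(a) a`. -/
def N (σ : RingAut F) (a : F) (k : ℕ) : F := ∏ j ∈ range k, (σ ^ j) a

/-- The value of the monomial `x^k` at a point:
`∏_i σ^(k_1 + ... + k_(i-1)) (N_(k_i)(a_i))`. -/
def monoVal (σ : RingAut F) {n : ℕ} (a : Fin n → F) (k : Fin n → ℕ) : F :=
  ∏ i, (σ ^ (∑ j, if j < i then k j else 0)) (N σ (a i) (k i))

/-- The `σ`-affine space. -/
def affineSpace (σ : RingAut F) (n : ℕ) : Set (Fin n → F) :=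
  {a | ∀ i j, i ≠ j → σ (a j) * a i = σ (a i) * a j}

/-- Evaluation of a skew polynomial (coefficients on the left) at a point. -/
noncomputable def eval {σ : RingAut F} {n : ℕ} (a : Fin n → F) (f : SkewPoly σ n) : F :=
  f.sum (fun k c => c * monoVal σ a (expo k))

/-- The common zeros in the `σ`-affine space of the members of a left ideal. -/
def zeroSet {σ : RingAut F} {n : ℕ} (J : Ideal (SkewPoly σ n)) : Set (Fin n → F) :=
  {a | a ∈ affineSpace σ n ∧ ∀ f ∈ J, eval a f = 0}

/-- The monomial with given exponents. -/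
def mono (σ : RingAut F) {n : ℕ} (k : Fin n → ℕ) : Mon σ n := Multiplicative.ofAdd k

/-- The variable `x_i`. -/
noncomputable def X (σ : RingAut F) (n : ℕ) (i : Fin n) : SkewPoly σ n :=
  SkewMonoidAlgebra.single (mono σ (Pi.single i 1)) 1

/-- The constant polynomial. -/
noncomputable def C (σ : RingAut F) (n : ℕ) (b : F) : SkewPoly σ n :=
  SkewMonoidAlgebra.single 1 b

/-- The commutation rule `x_i b = σ(b) x_i`. -/
theorem X_mul_C (σ : RingAut F) (n : ℕ) (i : Fin n) (b : F) :
    X σ n i * C σ n b = C σ n (σ b) * X σ n i := by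
  have h : mono σ (Pi.single i 1 : Fin n → ℕ) • b = σ b := by
    have h1 : (∑ j, (Pi.single i 1 : Fin n → ℕ) j) = 1 := by simp
    change (σ ^ (∑ j, (Pi.single i 1 : Fin n → ℕ) j)) b = σ b
    rw [h1, pow_one]
  simp only [X, C]
  rw [SkewMonoidAlgebra.single_mul_single, SkewMonoidAlgebra.single_mul_single, h]
  simp

/-- The variables commute. -/
theorem X_mul_X (σ : RingAut F) (n : ℕ) (i j : Fin n) :
    X σ n i * X σ n j = X σ n j * X σ n i := by
  simp only [X]
  rw [SkewMonoidAlgebra.single_mul_single, SkewMonoidAlgebra.single_mul_single, smul_one,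
    smul_one, mul_comm (mono σ (Pi.single i 1 : Fin n → ℕ))]

theorem smul_def' {σ : RingAut F} {n : ℕ} (k : Mon σ n) (c : F) :
    k • c = (σ ^ (∑ i, expo k i)) c := rfl

/-! ### The operators attached to a point -/

theorem End_mul_apply (f g : AddMonoid.End F) (x : F) : (f * g) x = f (g x) := rfl

theorem End_add_apply (f g : AddMonoid.End F) (x : F) : (f + g) x = f x + g x := rfl

/-- The operator `c ↦ σ(c) a`. -/
def T (σ : RingAut F) (a : F) : AddMonoid.End F where
  toFun c := σ c * a
  map_zero' := by simp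
  map_add' x y := by simp [add_mul]

@[simp] theorem T_apply (σ : RingAut F) (a c : F) : T σ a c = σ c * a := rfl

theorem T_pow_apply (σ : RingAut F) (a c : F) (k : ℕ) :
    (T σ a ^ k) c = (σ ^ k) c * N σ a k := by
  induction k generalizing c with
  | zero => simp [N]
  | succ k ih =>
    have hN : N σ a (k + 1) = N σ a k * (σ ^ k) a := by
      rw [N, prod_range_succ, ← N]
    rw [pow_succ, End_mul_apply, ih, T_apply, hN, map_mul, pow_succ, RingAut.mul_apply]
    ring

/-- The product of the powers `T_0^(k_0) T_1^(k_1) ...`. -/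
def Op (σ : RingAut F) {n : ℕ} (a : Fin n → F) (k : Fin n → ℕ) : AddMonoid.End F :=
  (List.ofFn (fun i => T σ (a i) ^ k i)).prod

theorem Op_succ (σ : RingAut F) {n : ℕ} (a : Fin (n + 1) → F) (k : Fin (n + 1) → ℕ) :
    Op σ a k = T σ (a 0) ^ k 0 * Op σ (fun i => a i.succ) (fun i => k i.succ) := by
  simp [Op, List.ofFn_succ]

theorem Op_apply (σ : RingAut F) {n : ℕ} (a : Fin n → F) (k : Fin n → ℕ) (c : F) :
    Op σ a k c = (σ ^ (∑ i, k i)) c * monoVal σ a k := by
  induction n generalizing c with
  | zero => simp [Op, monoVal]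
  | succ n ih =>
    rw [Op_succ, End_mul_apply, T_pow_apply, ih, map_mul, Fin.sum_univ_succ, pow_add,
      RingAut.mul_apply, mul_assoc]
    congr 1
    rw [monoVal, monoVal, Fin.prod_univ_succ, map_prod]
    simp only [Fin.sum_univ_succ, Fin.succ_lt_succ_iff, Fin.succ_pos, if_true,
      if_false, Fin.not_lt_zero, sum_const_zero, pow_zero, RingAut.one_apply, pow_add,
      RingAut.mul_apply]
    rw [mul_comm]

theorem Op_add (σ : RingAut F) {n : ℕ} (a : Fin n → F)
    (ha : ∀ i j, Commute (T σ (a i)) (T σ (a j))) (k l : Fin n → ℕ) :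
    Op σ a (k + l) = Op σ a k * Op σ a l := by
  induction n with
  | zero => simp [Op]
  | succ n ih =>
    have hc : Commute (T σ (a 0) ^ l 0) (Op σ (fun i => a i.succ) (fun i => k i.succ)) := by
      apply Commute.list_prod_right
      intro x hx
      rw [List.mem_ofFn] at hx
      obtain ⟨i, rfl⟩ := hx
      exact (ha _ _).pow_pow _ _
    rw [Op_succ, Op_succ, Op_succ σ a l]
    have h1 := ih (fun i => a i.succ) (fun i j => ha _ _) (fun i => k i.succ) (fun i => l i.succ)
    have h2 : (fun i : Fin n => (k + l) i.succ) = (fun i => k i.succ) + (fun i => l i.succ) := rfl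
    rw [h2, h1, Pi.add_apply, pow_add]
    simp only [mul_assoc]
    congr 1
    simp only [← mul_assoc]
    rw [hc.eq]

theorem T_comm {σ : RingAut F} {n : ℕ} {a : Fin n → F} (ha : a ∈ affineSpace σ n) (i j : Fin n) :
    Commute (T σ (a i)) (T σ (a j)) := by
  by_cases hij : i = j
  · subst hij; exact Commute.refl _
  · have h := ha i j hij
    ext c
    simp only [End_mul_apply, T_apply, map_mul]
    calc σ (σ c) * σ (a j) * a i = σ (σ c) * (σ (a j) * a i) := by ring
      _ = σ (σ c) * (σ (a i) * a j) := by rw [h]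
      _ = _ := by ring

/-- The point, as a homomorphism from the monoid of monomials to the additive endomorphisms. -/
def opHom {σ : RingAut F} {n : ℕ} (a : affineSpace σ n) : Mon σ n →* AddMonoid.End F where
  toFun k := Op σ a.1 (expo k)
  map_one' := by
    ext c
    rw [Op_apply]
    have : expo (1 : Mon σ n) = 0 := rfl
    rw [this]
    simp [monoVal, N]
  map_mul' k l := Op_add σ a.1 (T_comm a.2) (expo k) (expo l)

theorem opHom_apply {σ : RingAut F} {n : ℕ} (a : affineSpace σ n) (k : Mon σ n) (c : F) :
    opHom a k c = (k • c) * monoVal σ a.1 (expo k) := Op_apply σ a.1 (expo k) c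

/-- The action of the skew polynomial ring on `F` attached to a point. -/
noncomputable def act {σ : RingAut F} {n : ℕ} (a : affineSpace σ n) :
    SkewPoly σ n →+* AddMonoid.End F :=
  SkewMonoidAlgebra.liftNCRingHom (Module.toAddMonoidEnd F F) (opHom a) (by
    intro x k
    ext c
    have h1 : ((Module.toAddMonoidEnd F F) (k • x) * opHom a k) c
        = (k • x) * (opHom a k c) := rfl
    have h2 : (opHom a k * (Module.toAddMonoidEnd F F) x) c = opHom a k (x * c) := rfl
    rw [h1, h2, opHom_apply, opHom_apply, smul_mul']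
    ring)

theorem act_single {σ : RingAut F} {n : ℕ} (a : affineSpace σ n) (k : Mon σ n) (b c : F) :
    act a (SkewMonoidAlgebra.single k b) c = b * ((k • c) * monoVal σ a.1 (expo k)) := by
  have h : act a (SkewMonoidAlgebra.single k b) = Module.toAddMonoidEnd F F b * opHom a k :=
    SkewMonoidAlgebra.liftNC_single _ _ _ _
  have h1 : ((Module.toAddMonoidEnd F F) b * opHom a k) c = b * (opHom a k c) := rfl
  rw [h, h1, opHom_apply]

theorem eval_add {σ : RingAut F} {n : ℕ} (a : Fin n → F) (f g : SkewPoly σ n) :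
    eval a (f + g) = eval a f + eval a g := by
  unfold eval
  apply SkewMonoidAlgebra.sum_add_index'
  · intro k; simp
  · intro k x y; ring

theorem eval_zero {σ : RingAut F} {n : ℕ} (a : Fin n → F) :
    eval a (0 : SkewPoly σ n) = 0 := by
  simp [eval]

theorem eval_single {σ : RingAut F} {n : ℕ} (a : Fin n → F) (k : Mon σ n) (b : F) :
    eval a (SkewMonoidAlgebra.single k b) = b * monoVal σ a (expo k) := by
  simp [eval, SkewMonoidAlgebra.sum_single_index]

theorem act_one {σ : RingAut F} {n : ℕ} (a : affineSpace σ n) (f : SkewPoly σ n) :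
    act a f 1 = eval a.1 f := by
  induction f using SkewMonoidAlgebra.induction_on with
  | zero => simp [eval_zero]
  | single k b => rw [act_single, eval_single]; simp
  | add f g hf hg => rw [map_add, eval_add, End_add_apply, hf, hg]

/-- The conjugate point `σ(c) a_i c⁻¹`. -/
def conjPt (σ : RingAut F) {n : ℕ} (a : Fin n → F) (c : F) : Fin n → F :=
  fun i => σ c * a i * c⁻¹

theorem conjPt_mem {σ : RingAut F} {n : ℕ} {a : Fin n → F} (ha : a ∈ affineSpace σ n) (c : F) :
    conjPt σ a c ∈ affineSpace σ n := by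
  intro i j hij
  have h := ha i j hij
  simp only [conjPt, map_mul, map_inv₀]
  calc σ (σ c) * σ (a j) * (σ c)⁻¹ * (σ c * a i * c⁻¹)
      = σ (σ c) * (σ c)⁻¹ * σ c * c⁻¹ * (σ (a j) * a i) := by ring
    _ = σ (σ c) * (σ c)⁻¹ * σ c * c⁻¹ * (σ (a i) * a j) := by rw [h]
    _ = _ := by ring

theorem N_conj {σ : RingAut F} (a c : F) (hc : c ≠ 0) (k : ℕ) :
    N σ (σ c * a * c⁻¹) k = (σ ^ k) c * N σ a k * c⁻¹ := by
  induction k with
  | zero => simp [N, hc]
  | succ k ih =>
    have h1 : (σ ^ k) c ≠ 0 := (map_ne_zero _).mpr hc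
    have hN : ∀ b : F, N σ b (k + 1) = N σ b k * (σ ^ k) b := by
      intro b
      rw [N, prod_range_succ, ← N]
    rw [hN, hN, ih, pow_succ, RingAut.mul_apply]
    simp only [map_mul, map_inv₀]
    field_simp

theorem monoVal_conj {σ : RingAut F} {n : ℕ} (a : Fin n → F) (c : F) (hc : c ≠ 0)
    (k : Fin n → ℕ) :
    monoVal σ (conjPt σ a c) k = (σ ^ (∑ i, k i)) c * monoVal σ a k * c⁻¹ := by
  induction n with
  | zero => simp [monoVal, hc]
  | succ n ih =>
    have h0 : (σ ^ k 0) c ≠ 0 := (map_ne_zero _).mpr hc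
    have key : ∀ b : Fin (n + 1) → F, monoVal σ b k =
        N σ (b 0) (k 0) * (σ ^ k 0) (monoVal σ (fun i => b i.succ) (fun i => k i.succ)) := by
      intro b
      rw [monoVal, monoVal, Fin.prod_univ_succ, map_prod]
      simp only [Fin.sum_univ_succ, Fin.succ_lt_succ_iff, Fin.succ_pos, if_true,
        if_false, Fin.not_lt_zero, sum_const_zero, pow_zero, RingAut.one_apply, pow_add,
        RingAut.mul_apply]
    have h2 : (fun i : Fin n => conjPt σ a c i.succ) = conjPt σ (fun i => a i.succ) c := rfl
    rw [key, key, h2, ih, conjPt, N_conj _ _ hc, Fin.sum_univ_succ, pow_add, RingAut.mul_apply]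
    simp only [map_mul, map_inv₀]
    field_simp

theorem eval_conj {σ : RingAut F} {n : ℕ} (a : affineSpace σ n) (c : F) (hc : c ≠ 0)
    (f : SkewPoly σ n) : eval (conjPt σ a.1 c) f = act a f c * c⁻¹ := by
  induction f using SkewMonoidAlgebra.induction_on with
  | zero => simp [eval_zero]
  | single k b =>
    rw [act_single, eval_single, monoVal_conj _ _ hc, smul_def']; ring
  | add f g hf hg => rw [map_add, eval_add, End_add_apply, hf, hg]; ring

/-! ### The simple modules attached to the points -/

/-- The module attached to a point: the additive group of `F`. -/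
def Pt {σ : RingAut F} {n : ℕ} (_a : affineSpace σ n) : Type _ := F

/-- The identity map, from `F` to the module. -/
def toPt {σ : RingAut F} {n : ℕ} (a : affineSpace σ n) (c : F) : Pt a := c

/-- The identity map, from the module to `F`. -/
def ofPt {σ : RingAut F} {n : ℕ} {a : affineSpace σ n} (c : Pt a) : F := c

noncomputable instance {σ : RingAut F} {n : ℕ} (a : affineSpace σ n) : AddCommGroup (Pt a) :=
  inferInstanceAs (AddCommGroup F)

noncomputable instance {σ : RingAut F} {n : ℕ} (a : affineSpace σ n) :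
    Module (SkewPoly σ n) (Pt a) :=
  Module.compHom (R := AddMonoid.End F) F (act a)

theorem Pt_smul {σ : RingAut F} {n : ℕ} (a : affineSpace σ n) (f : SkewPoly σ n) (c : Pt a) :
    f • c = toPt a (act a f (ofPt c)) := rfl

instance {σ : RingAut F} {n : ℕ} (a : affineSpace σ n) : IsSimpleModule (SkewPoly σ n) (Pt a) := by
  have : Nontrivial (Pt a) := inferInstanceAs (Nontrivial F)
  rw [isSimpleModule_iff_toSpanSingleton_surjective]
  refine ⟨inferInstance, ?_⟩
  intro c hc d
  refine ⟨SkewMonoidAlgebra.single 1 (ofPt d * (ofPt c)⁻¹), ?_⟩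
  have hc' : ofPt c ≠ 0 := hc
  rw [LinearMap.toSpanSingleton_apply, Pt_smul, act_single, one_smul]
  have : monoVal σ a.1 (expo (1 : Mon σ n)) = 1 := by
    have : expo (1 : Mon σ n) = 0 := rfl
    rw [this]
    simp [monoVal, N]
  rw [this]
  have h2 : ofPt d * (ofPt c)⁻¹ * (ofPt c * 1) = ofPt d := by field_simp
  rw [h2]; rfl

/-- **The strong skew Finitesatz in several variables.** Let `F` be a finite field, `σ` an
automorphism of `F`, `J` a left ideal of `R_n = F[x_1, ..., x_n; σ]`. A skew polynomial vanishes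
on the zero set of `J` in the `σ`-affine space if and only if it is the sum of a member of `J` and
a skew polynomial which vanishes on the whole `σ`-affine space. -/
theorem result (F : Type*) [Field F] [Finite F] (σ : RingAut F) (n : ℕ)
    (J : Ideal (SkewPoly σ n)) (f : SkewPoly σ n) :
    (∀ a ∈ zeroSet J, eval a f = 0) ↔
      ∃ g ∈ J, ∃ h : SkewPoly σ n, (∀ a ∈ affineSpace σ n, eval a h = 0) ∧ f = g + h := by
  constructor
  · intro hf
    by_contra hcon
    -- the evaluation map into the product of the simple modules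
    let ev : SkewPoly σ n →ₗ[SkewPoly σ n] (∀ a : affineSpace σ n, Pt a) :=
      LinearMap.toSpanSingleton (SkewPoly σ n) (∀ a : affineSpace σ n, Pt a) (fun a => toPt a 1)
    have hev : ∀ g (a : affineSpace σ n), ev g a = toPt a (eval a.1 g) := by
      intro g a
      change g • (toPt a 1) = _
      rw [Pt_smul, ← act_one]
      rfl
    let L : Submodule (SkewPoly σ n) (∀ a : affineSpace σ n, Pt a) := Submodule.map ev J
    have hfL : ev f ∉ L := by
      rintro ⟨g, hg, hgf⟩
      refine hcon ⟨g, hg, f - g, ?_, by abel⟩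
      intro a ha
      have h1 : ev (f - g) = 0 := by rw [map_sub, hgf, sub_self]
      have h2 := hev (f - g) ⟨a, ha⟩
      rw [h1] at h2
      exact h2.symm
    have : Finite (affineSpace σ n) := inferInstance
    obtain ⟨C, hC⟩ := exists_isCompl L
    have hproj : C.projection L hC.symm (ev f) ≠ 0 := by
      intro h0
      rw [Submodule.projection_apply_eq_zero_iff] at h0
      exact hfL h0
    obtain ⟨a, ha⟩ : ∃ a, C.projection L hC.symm (ev f) a ≠ 0 := by
      by_contra hno
      push Not at hno
      exact hproj (funext hno)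
    let θ : SkewPoly σ n →ₗ[SkewPoly σ n] Pt a :=
      (LinearMap.proj a) ∘ₗ (C.projection L hC.symm) ∘ₗ ev
    have hθf : θ f ≠ 0 := ha
    have hθJ : ∀ g ∈ J, θ g = 0 := by
      intro g hg
      have : C.projection L hC.symm (ev g) = 0 := by
        rw [Submodule.projection_apply_eq_zero_iff]
        exact ⟨g, hg, rfl⟩
      change (C.projection L hC.symm (ev g)) a = 0
      rw [this]; rfl
    obtain ⟨c, hc⟩ : ∃ c : F, c = ofPt (θ 1) := ⟨_, rfl⟩
    have hθ : ∀ g, θ g = toPt a (act a g c) := by
      intro g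
      have h1 : θ (g • (1 : SkewPoly σ n)) = g • θ 1 := θ.map_smul g 1
      rw [smul_eq_mul, mul_one] at h1
      rw [h1, Pt_smul, hc]
    have hc0 : c ≠ 0 := by
      intro h0
      apply hθf
      rw [hθ, h0, map_zero]
      rfl
    have hmem : conjPt σ a.1 c ∈ zeroSet J := by
      refine ⟨conjPt_mem a.2 c, ?_⟩
      intro g hg
      rw [eval_conj a c hc0]
      have h4 : act a g c = 0 := by
        have h5 := hθJ g hg
        rw [hθ g] at h5
        exact h5
      rw [h4, zero_mul]
    have h3 := hf _ hmem
    rw [eval_conj a c hc0] at h3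
    rcases mul_eq_zero.mp h3 with h | h
    · exact hθf (by rw [hθ, h]; rfl)
    · exact hc0 (inv_eq_zero.mp h)
  · rintro ⟨g, hg, h, hh, rfl⟩ a ha
    rw [eval_add, ha.2 g hg, hh a ha.1, add_zero]

end Pool.Agent.Results.MP_89f45c_al.SkewFinitesatz
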